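import Pool.Agent.GBS.Stmts

/-!
# GBS, row EPI: infinitesimal invariance of the determinant
-/

noncomputable section

open Matrix

namespace Pool.Agent.GBS.H91

open Pool.Agent.GBS

/-- the matrix with rows `u, e_i, e_j, e_k, e_l` -/
def VV (u : Fin 5 → ℝ) (i j k l : Fin 5) : M5 :=
  Matrix.of ![u, Pi.single i 1, Pi.single j 1, Pi.single k 1, Pi.single l 1]

theorem upd (V : M5) (r : Fin 5) (w : Fin 5 → ℝ) :
    (V.updateRow r w).det = ∑ p, w p * (V.updateRow r (Pi.single p 1)).det := by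
  have h : ∀ b : Fin 5 → ℝ, (V.updateRow r b).det = ((Vᵀ).adjugate *ᵥ b) r := by
    intro b
    rw [← Matrix.cramer_eq_adjugate_mulVec, Matrix.cramer_transpose_apply]
  rw [h w]
  simp_rw [h]
  simp only [Matrix.mulVec_single_one]
  rw [Matrix.mulVec, dotProduct]
  refine Finset.sum_congr rfl fun p _ => ?_
  rw [mul_comm]
  rfl

theorem inv1 (M V : M5) :
    ∑ r, (V.updateRow r (M *ᵥ V r)).det = M.trace * V.det := by
  have h : ∀ (r : Fin 5) (b : Fin 5 → ℝ), (V.updateRow r b).det = ((Vᵀ).adjugate *ᵥ b) r := by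
    intro r b
    rw [← Matrix.cramer_eq_adjugate_mulVec, Matrix.cramer_transpose_apply]
  simp_rw [h]
  have h2 : ∀ r : Fin 5, ((Vᵀ).adjugate *ᵥ (M *ᵥ V r)) r =
      ((Vᵀ).adjugate * M * Vᵀ) r r := by
    intro r
    rw [Matrix.mulVec_mulVec]
    rfl
  simp_rw [h2]
  change Matrix.trace ((Vᵀ).adjugate * M * Vᵀ) = _
  rw [Matrix.trace_mul_comm, ← Matrix.mul_assoc, Matrix.mul_adjugate, Matrix.det_transpose,
    Matrix.smul_mul, Matrix.one_mul, Matrix.trace_smul, smul_eq_mul, mul_comm]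

theorem eps_eq (u : Fin 5 → ℝ) (i j k l : Fin 5) : eps u i j k l = (VV u i j k l).det := rfl

theorem up0 (u v : Fin 5 → ℝ) (i j k l : Fin 5) :
    (VV u i j k l).updateRow 0 v = VV v i j k l := by
  ext a b; fin_cases a <;> simp [VV, Matrix.updateRow_apply]

theorem up1 (u : Fin 5 → ℝ) (i j k l p : Fin 5) :
    (VV u i j k l).updateRow 1 (Pi.single p 1) = VV u p j k l := by
  ext a b; fin_cases a <;> simp [VV, Matrix.updateRow_apply]

theorem up2 (u : Fin 5 → ℝ) (i j k l p : Fin 5) :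
    (VV u i j k l).updateRow 2 (Pi.single p 1) = VV u i p k l := by
  ext a b; fin_cases a <;> simp [VV, Matrix.updateRow_apply]

theorem up3 (u : Fin 5 → ℝ) (i j k l p : Fin 5) :
    (VV u i j k l).updateRow 3 (Pi.single p 1) = VV u i j p l := by
  ext a b; fin_cases a <;> simp [VV, Matrix.updateRow_apply]

theorem up4 (u : Fin 5 → ℝ) (i j k l p : Fin 5) :
    (VV u i j k l).updateRow 4 (Pi.single p 1) = VV u i j k p := by
  ext a b; fin_cases a <;> simp [VV, Matrix.updateRow_apply]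

theorem mvs (M : M5) (i p : Fin 5) : (M *ᵥ (Pi.single i 1 : Fin 5 → ℝ)) p = M p i := by
  rw [Matrix.mulVec_single_one]; rfl

theorem part1 (M : M5) (u : Fin 5 → ℝ) (i j k l : Fin 5) :
    eps (M *ᵥ u) i j k l + (∑ p, M p i * eps u p j k l) + (∑ p, M p j * eps u i p k l)
      + (∑ p, M p k * eps u i j p l) + (∑ p, M p l * eps u i j k p) =
      M.trace * eps u i j k l := by
  have h := inv1 M (VV u i j k l)
  rw [Fin.sum_univ_five] at h
  have r0 : VV u i j k l 0 = u := rfl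
  have r1 : VV u i j k l 1 = Pi.single i 1 := rfl
  have r2 : VV u i j k l 2 = Pi.single j 1 := rfl
  have r3 : VV u i j k l 3 = Pi.single k 1 := rfl
  have r4 : VV u i j k l 4 = Pi.single l 1 := rfl
  rw [r0, r1, r2, r3, r4, up0, upd _ 1, upd _ 2, upd _ 3, upd _ 4] at h
  simp_rw [up1, up2, up3, up4, mvs] at h
  simp_rw [eps_eq]
  exact h

theorem mv4 (g : Fin 5 → Fin 5 → Fin 5 → Fin 5 → ℝ) :
    ∑ j, ∑ k, ∑ l, ∑ p, g j k l p = ∑ p, ∑ j, ∑ k, ∑ l, g j k l p := by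
  calc ∑ j, ∑ k, ∑ l, ∑ p, g j k l p = ∑ j, ∑ k, ∑ p, ∑ l, g j k l p :=
        Finset.sum_congr rfl fun j _ => Finset.sum_congr rfl fun k _ => Finset.sum_comm
    _ = ∑ j, ∑ p, ∑ k, ∑ l, g j k l p := Finset.sum_congr rfl fun j _ => Finset.sum_comm
    _ = _ := Finset.sum_comm

theorem mv3 (g : Fin 5 → Fin 5 → Fin 5 → ℝ) :
    ∑ k, ∑ l, ∑ p, g k l p = ∑ p, ∑ k, ∑ l, g k l p := by
  calc ∑ k, ∑ l, ∑ p, g k l p = ∑ k, ∑ p, ∑ l, g k l p :=
        Finset.sum_congr rfl fun k _ => Finset.sum_comm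
    _ = _ := Finset.sum_comm

theorem mv2 (g : Fin 5 → Fin 5 → ℝ) : ∑ l, ∑ p, g l p = ∑ p, ∑ l, g l p := Finset.sum_comm

/-- exchange of the first and the last summation index -/
theorem sw1 (f : Fin 5 → Fin 5 → Fin 5 → Fin 5 → Fin 5 → ℝ) :
    ∑ i, ∑ j, ∑ k, ∑ l, ∑ p, f i j k l p = ∑ i, ∑ j, ∑ k, ∑ l, ∑ p, f p j k l i := by
  calc ∑ i, ∑ j, ∑ k, ∑ l, ∑ p, f i j k l p
      = ∑ i, ∑ p, ∑ j, ∑ k, ∑ l, f i j k l p := Finset.sum_congr rfl fun i _ => mv4 _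
    _ = ∑ p, ∑ i, ∑ j, ∑ k, ∑ l, f i j k l p := Finset.sum_comm
    _ = ∑ i, ∑ j, ∑ k, ∑ l, ∑ p, f p j k l i :=
        Finset.sum_congr rfl fun p _ => (mv4 (fun j k l i => f i j k l p)).symm

theorem sw2 (f : Fin 5 → Fin 5 → Fin 5 → Fin 5 → Fin 5 → ℝ) :
    ∑ i, ∑ j, ∑ k, ∑ l, ∑ p, f i j k l p = ∑ i, ∑ j, ∑ k, ∑ l, ∑ p, f i p k l j := by
  refine Finset.sum_congr rfl fun i _ => ?_
  calc ∑ j, ∑ k, ∑ l, ∑ p, f i j k l p
      = ∑ j, ∑ p, ∑ k, ∑ l, f i j k l p := Finset.sum_congr rfl fun j _ => mv3 _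
    _ = ∑ p, ∑ j, ∑ k, ∑ l, f i j k l p := Finset.sum_comm
    _ = ∑ j, ∑ k, ∑ l, ∑ p, f i p k l j :=
        Finset.sum_congr rfl fun p _ => (mv3 (fun k l j => f i j k l p)).symm

theorem sw3 (f : Fin 5 → Fin 5 → Fin 5 → Fin 5 → Fin 5 → ℝ) :
    ∑ i, ∑ j, ∑ k, ∑ l, ∑ p, f i j k l p = ∑ i, ∑ j, ∑ k, ∑ l, ∑ p, f i j p l k := by
  refine Finset.sum_congr rfl fun i _ => Finset.sum_congr rfl fun j _ => ?_
  calc ∑ k, ∑ l, ∑ p, f i j k l p
      = ∑ k, ∑ p, ∑ l, f i j k l p := Finset.sum_congr rfl fun k _ => Finset.sum_comm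
    _ = ∑ p, ∑ k, ∑ l, f i j k l p := Finset.sum_comm
    _ = ∑ k, ∑ l, ∑ p, f i j p l k :=
        Finset.sum_congr rfl fun p _ => (mv2 (fun l k => f i j k l p)).symm

theorem sw4 (f : Fin 5 → Fin 5 → Fin 5 → Fin 5 → Fin 5 → ℝ) :
    ∑ i, ∑ j, ∑ k, ∑ l, ∑ p, f i j k l p = ∑ i, ∑ j, ∑ k, ∑ l, ∑ p, f i j k p l :=
  Finset.sum_congr rfl fun _ _ => Finset.sum_congr rfl fun _ _ => Finset.sum_congr rfl fun _ _ =>
    Finset.sum_comm

theorem part2 (M : M5) (u : Fin 5 → ℝ) (S T : M5) :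
    Pf (M *ᵥ u) S T + Pf u (M * S + S * Mᵀ) T + Pf u S (M * T + T * Mᵀ) =
      M.trace * Pf u S T := by
  have e1 : Pf u (M * S + S * Mᵀ) T =
      ∑ i, ∑ j, ∑ k, ∑ l, ((∑ p, M p i * eps u p j k l) + (∑ p, M p j * eps u i p k l)) *
        (S i j * T k l) := by
    have a1 : ∑ i, ∑ j, ∑ k, ∑ l, ∑ p, M p i * eps u p j k l * (S i j * T k l) =
        ∑ i, ∑ j, ∑ k, ∑ l, ∑ p, M i p * eps u i j k l * (S p j * T k l) :=
      sw1 (fun i j k l p => M p i * eps u p j k l * (S i j * T k l))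
    have a2 : ∑ i, ∑ j, ∑ k, ∑ l, ∑ p, M p j * eps u i p k l * (S i j * T k l) =
        ∑ i, ∑ j, ∑ k, ∑ l, ∑ p, M j p * eps u i j k l * (S i p * T k l) :=
      sw2 (fun i j k l p => M p j * eps u i p k l * (S i j * T k l))
    simp only [add_mul, Finset.sum_mul, Finset.sum_add_distrib]
    rw [a1, a2]
    simp only [Pf, ctr, ← Finset.sum_add_distrib]
    refine Finset.sum_congr rfl fun i _ => Finset.sum_congr rfl fun j _ =>
      Finset.sum_congr rfl fun k _ => Finset.sum_congr rfl fun l _ => ?_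
    rw [Matrix.add_apply, Matrix.mul_apply, Matrix.mul_apply, ← Finset.sum_add_distrib,
      Finset.sum_mul, Finset.mul_sum]
    refine Finset.sum_congr rfl fun p _ => ?_
    rw [Matrix.transpose_apply]
    ring
  have e2 : Pf u S (M * T + T * Mᵀ) =
      ∑ i, ∑ j, ∑ k, ∑ l, ((∑ p, M p k * eps u i j p l) + (∑ p, M p l * eps u i j k p)) *
        (S i j * T k l) := by
    have a1 : ∑ i, ∑ j, ∑ k, ∑ l, ∑ p, M p k * eps u i j p l * (S i j * T k l) =
        ∑ i, ∑ j, ∑ k, ∑ l, ∑ p, M k p * eps u i j k l * (S i j * T p l) :=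
      sw3 (fun i j k l p => M p k * eps u i j p l * (S i j * T k l))
    have a2 : ∑ i, ∑ j, ∑ k, ∑ l, ∑ p, M p l * eps u i j k p * (S i j * T k l) =
        ∑ i, ∑ j, ∑ k, ∑ l, ∑ p, M l p * eps u i j k l * (S i j * T k p) :=
      sw4 (fun i j k l p => M p l * eps u i j k p * (S i j * T k l))
    simp only [add_mul, Finset.sum_mul, Finset.sum_add_distrib]
    rw [a1, a2]
    simp only [Pf, ctr, ← Finset.sum_add_distrib]
    refine Finset.sum_congr rfl fun i _ => Finset.sum_congr rfl fun j _ =>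
      Finset.sum_congr rfl fun k _ => Finset.sum_congr rfl fun l _ => ?_
    rw [Matrix.add_apply, Matrix.mul_apply, Matrix.mul_apply, ← Finset.sum_add_distrib,
      Finset.mul_sum, Finset.mul_sum]
    refine Finset.sum_congr rfl fun p _ => ?_
    rw [Matrix.transpose_apply]
    ring
  rw [e1, e2]
  simp only [Pf, ctr, ← Finset.sum_add_distrib, Finset.mul_sum]
  refine Finset.sum_congr rfl fun i _ => Finset.sum_congr rfl fun j _ =>
    Finset.sum_congr rfl fun k _ => Finset.sum_congr rfl fun l _ => ?_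
  have h := part1 M u i j k l
  rw [← mul_assoc M.trace, ← h]
  simp only [Finset.sum_add_distrib]
  ring

theorem epi : EpiStatement := fun M u => ⟨part1 M u, part2 M u⟩

end Pool.Agent.GBS.H91
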