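import Pool.Agent.GBS.StmtsC
import Pool.Agent.Helper92_GBS.ALG3

/-!
# Row MN3 of squad GBS (MP_33f2b9_gt): `|K| ≤ 1`, integrated, with the trace-free Ricci tensor.
-/

set_option autoImplicit false

noncomputable section

open scoped ContDiff Topology RealInnerProductSpace
open Set MeasureTheory Matrix

namespace Pool.Agent.GBS.H91

open Pool.Agent.RF Pool.Agent.MVS

theorem mn3 (cgb : CgbStmt) (frm : FrmStmt) (fra : FraStmt) (pfr : PfrStmt) (act : ActStmt)
    (cnt : CntStmt) (rnf : RnfStmt) : Mn3Stmt := by
  intro G hG hint hrz hsec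
  obtain ⟨h1, h2⟩ := cgb G hG
  obtain ⟨-, -, h3, -⟩ := cnt G hG
  rw [← h2]
  have hmeas : MeasurableSet (slab (Fin 5)) := by
    apply IsOpen.measurableSet
    exact (isOpen_lt continuous_const continuous_norm).inter
      (isOpen_lt continuous_norm continuous_const)
  have h4 : IntegrableOn (fun x => 96 * sd (G x)) (slab (Fin 5)) := h3.const_mul 96
  have h5 : IntegrableOn (fun x => 96 * sd (G x) + |pnt G x|) (slab (Fin 5)) := h4.add hint
  have h7 : IntegrableOn (fun x => 16 * rz G x) (slab (Fin 5)) := hrz.const_mul 16
  have h8 : IntegrableOn (fun x => eul G x + 16 * rz G x) (slab (Fin 5)) := h1.add h7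
  calc (∫ x in slab (Fin 5), eul G x) + 16 * (∫ x in slab (Fin 5), rz G x) =
      ∫ x in slab (Fin 5), (eul G x + 16 * rz G x) := by
        rw [integral_add h1 h7, integral_const_mul]
    _ ≤ ∫ x in slab (Fin 5), (96 * sd (G x) + |pnt G x|) := by
        apply setIntegral_mono_on h8 h5 hmeas
        intro x hx
        have hx0 : x ∈ Om (Fin 5) := by
          intro h
          have hx1 : 1 < ‖x‖ := hx.1
          rw [h, norm_zero] at hx1
          linarith
        obtain ⟨F, hF⟩ := frm G x hG hx0
        have hA := act G x F hG hx0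
        have hs := hsec x hx0 F hF
        have key := H92.alg1rr hA
          (fun u v => by
            have h := (hs u v).2
            rwa [one_mul] at h)
          (fun u v => by
            have h := (hs u v).1
            rwa [neg_one_mul] at h)
        have hr := (rnf G x F hG hx0 hF).2
        rw [fra G x F hG hx0 hF, pfr G x F hG hx0 hF, hr]
        have hsd : 0 ≤ sd (G x) := Real.sqrt_nonneg _
        have h6 := mul_le_mul_of_nonneg_left key hsd
        linarith
    _ = 96 * (∫ x in slab (Fin 5), sd (G x)) + ∫ x in slab (Fin 5), |pnt G x| := by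
        rw [integral_add h4 hint, integral_const_mul]

end Pool.Agent.GBS.H91
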